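import Pool.Agent.W770.KP.Stm

/-!
# KP-LL: the line lemma with multiplicities (helper790, for helper770)
-/

set_option autoImplicit false

namespace Pool.Agent.W790.KP

open Pool.Agent.W770.KP
open scoped Classical

variable {F : Type} [Field F] {n : ℕ}

/-- degree in the parameter and top coefficient -/
def EE (W : MvPolynomial (Fin n) (Polynomial F)) (d : ℕ) (W' : MvPolynomial (Fin n) F) : Prop :=
  ∀ α : Fin n →₀ ℕ, (W.coeff α).natDegree ≤ d ∧ (W.coeff α).coeff d = W'.coeff α

theorem EE_mul {W V : MvPolynomial (Fin n) (Polynomial F)} {d d' : ℕ}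
    {W' V' : MvPolynomial (Fin n) F} (h : EE W d W') (h' : EE V d' V') :
    EE (W * V) (d + d') (W' * V') := by
  intro α
  rw [MvPolynomial.coeff_mul, MvPolynomial.coeff_mul]
  constructor
  · refine Polynomial.natDegree_sum_le_of_forall_le _ _ fun x _ => ?_
    exact Polynomial.natDegree_mul_le.trans (add_le_add (h _).1 (h' _).1)
  · rw [Polynomial.finsetSum_coeff]
    refine Finset.sum_congr rfl fun x _ => ?_
    rw [Polynomial.coeff_mul_add_eq_of_natDegree_le (h _).1 (h' _).1, (h _).2, (h' _).2]

theorem EE_C (c : F) : EE (n := n) (MvPolynomial.C (Polynomial.C c)) 0 (MvPolynomial.C c) := by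
  intro α
  rw [MvPolynomial.coeff_C, MvPolynomial.coeff_C]
  split_ifs <;> simp

theorem EE_one : EE (n := n) (F := F) 1 0 1 := by
  have h := EE_C (n := n) (1 : F)
  simpa using h

theorem EE_pow {W : MvPolynomial (Fin n) (Polynomial F)} {W' : MvPolynomial (Fin n) F}
    (h : EE W 1 W') (k : ℕ) : EE (W ^ k) k (W' ^ k) := by
  induction k with
  | zero => simpa using EE_one
  | succ k ih =>
    rw [pow_succ, pow_succ]
    exact EE_mul ih h

theorem EE_prod {ι : Type} (s : Finset ι) (W : ι → MvPolynomial (Fin n) (Polynomial F))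
    (d : ι → ℕ) (W' : ι → MvPolynomial (Fin n) F) (h : ∀ i ∈ s, EE (W i) (d i) (W' i)) :
    EE (∏ i ∈ s, W i) (∑ i ∈ s, d i) (∏ i ∈ s, W' i) := by
  induction s using Finset.induction_on with
  | empty => simpa using EE_one
  | insert a s ha ih =>
    rw [Finset.prod_insert ha, Finset.sum_insert ha, Finset.prod_insert ha]
    exact EE_mul (h a (Finset.mem_insert_self _ _))
      (ih fun i hi => h i (Finset.mem_insert_of_mem hi))

theorem EE_sum {ι : Type} (s : Finset ι) (W : ι → MvPolynomial (Fin n) (Polynomial F))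
    (d : ℕ) (W' : ι → MvPolynomial (Fin n) F) (h : ∀ i ∈ s, EE (W i) d (W' i)) :
    EE (∑ i ∈ s, W i) d (∑ i ∈ s, W' i) := by
  intro α
  rw [MvPolynomial.coeff_sum, MvPolynomial.coeff_sum]
  constructor
  · exact Polynomial.natDegree_sum_le_of_forall_le _ _ fun x hx => (h x hx α).1
  · rw [Polynomial.finsetSum_coeff]
    exact Finset.sum_congr rfl fun x hx => (h x hx α).2

/-- divisibility -/
def DD (U : Polynomial F) (W : MvPolynomial (Fin n) (Polynomial F)) (d : ℕ) : Prop :=
  ∀ α : Fin n →₀ ℕ, U ^ (d - α.degree) ∣ W.coeff α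

theorem DD_mul {U : Polynomial F} {W V : MvPolynomial (Fin n) (Polynomial F)} {d d' : ℕ}
    (h : DD U W d) (h' : DD U V d') : DD U (W * V) (d + d') := by
  intro α
  rw [MvPolynomial.coeff_mul]
  refine Finset.dvd_sum fun x hx => ?_
  rw [Finset.HasAntidiagonal.mem_antidiagonal] at hx
  have h1 : α.degree = x.1.degree + x.2.degree := by
    rw [← hx, map_add]
  refine dvd_trans ?_ (mul_dvd_mul (h x.1) (h' x.2))
  rw [← pow_add]
  exact pow_dvd_pow _ (by omega)

theorem DD_zero (U : Polynomial F) (W : MvPolynomial (Fin n) (Polynomial F)) : DD U W 0 := by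
  intro α
  simp

theorem DD_mono {U : Polynomial F} {W : MvPolynomial (Fin n) (Polynomial F)} {d d' : ℕ}
    (h : DD U W d) (hd : d' ≤ d) : DD U W d' := fun α =>
  dvd_trans (pow_dvd_pow _ (by omega)) (h α)

theorem DD_pow {U : Polynomial F} {W : MvPolynomial (Fin n) (Polynomial F)}
    (h : DD U W 1) (k : ℕ) : DD U (W ^ k) k := by
  induction k with
  | zero => exact DD_zero _ _
  | succ k ih =>
    rw [pow_succ]
    exact DD_mul ih h

theorem DD_prod {ι : Type} {U : Polynomial F} (s : Finset ι)
    (W : ι → MvPolynomial (Fin n) (Polynomial F))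
    (d : ι → ℕ) (h : ∀ i ∈ s, DD U (W i) (d i)) :
    DD U (∏ i ∈ s, W i) (∑ i ∈ s, d i) := by
  induction s using Finset.induction_on with
  | empty => exact DD_zero _ _
  | insert a s ha ih =>
    rw [Finset.prod_insert ha, Finset.sum_insert ha]
    exact DD_mul (h a (Finset.mem_insert_self _ _))
      (ih fun i hi => h i (Finset.mem_insert_of_mem hi))

theorem DD_sum {ι : Type} {U : Polynomial F} (s : Finset ι)
    (W : ι → MvPolynomial (Fin n) (Polynomial F))
    (d : ℕ) (h : ∀ i ∈ s, DD U (W i) d) : DD U (∑ i ∈ s, W i) d := by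
  intro α
  rw [MvPolynomial.coeff_sum]
  exact Finset.dvd_sum fun x hx => h x hx α

/-- the substitution -/
noncomputable def sb (z w : Fin n → Polynomial F) (i : Fin n) :
    MvPolynomial (Fin n) (Polynomial F) :=
  MvPolynomial.C (z i) + MvPolynomial.C (w i) * MvPolynomial.X i

theorem coeff_sb (z w : Fin n → Polynomial F) (i : Fin n) (α : Fin n →₀ ℕ) :
    (sb z w i).coeff α = (if 0 = α then z i else 0) +
      w i * (if Finsupp.single i 1 = α then 1 else 0) := by
  unfold sb
  rw [MvPolynomial.coeff_add, MvPolynomial.coeff_C, MvPolynomial.coeff_C_mul,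
    MvPolynomial.coeff_X]

theorem EE_sb (b v : Fin n → F) (i : Fin n) :
    EE (sb (fun i => Polynomial.C (b i) + Polynomial.X * Polynomial.C (v i))
      (fun _ => Polynomial.X) i) 1 (MvPolynomial.X i + MvPolynomial.C (v i)) := by
  intro α
  rw [coeff_sb, MvPolynomial.coeff_add, MvPolynomial.coeff_C, MvPolynomial.coeff_X]
  constructor
  · refine Polynomial.natDegree_add_le_of_degree_le ?_ ?_
    · split_ifs
      · refine Polynomial.natDegree_add_le_of_degree_le (by simp) ?_
        refine Polynomial.natDegree_mul_le.trans ?_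
        simp
      · simp
    · refine Polynomial.natDegree_mul_le.trans ?_
      split_ifs <;> simp
  · split_ifs <;> simp [Polynomial.coeff_X, Polynomial.coeff_C, add_comm]

theorem aeval_mon (f : Fin n → MvPolynomial (Fin n) (Polynomial F)) (β : Fin n →₀ ℕ) (c : F) :
    MvPolynomial.aeval f (MvPolynomial.monomial β c) =
      MvPolynomial.C (Polynomial.C c) * ∏ i ∈ β.support, f i ^ β i := by
  rw [MvPolynomial.aeval_monomial]
  rfl

theorem shift_mon (v : Fin n → F) (β : Fin n →₀ ℕ) (c : F) :
    shift v (MvPolynomial.monomial β c) =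
      MvPolynomial.C c * ∏ i ∈ β.support, (MvPolynomial.X i + MvPolynomial.C (v i)) ^ β i := by
  unfold shift
  rw [MvPolynomial.bind₁_monomial]

theorem deg_sum (β : Fin n →₀ ℕ) : β.degree = ∑ i ∈ β.support, β i := rfl

theorem EE_mon (b v : Fin n → F) (β : Fin n →₀ ℕ) (c : F) :
    EE (MvPolynomial.aeval (sb (fun i => Polynomial.C (b i) + Polynomial.X * Polynomial.C (v i))
      (fun _ => Polynomial.X)) (MvPolynomial.monomial β c)) β.degree
      (shift v (MvPolynomial.monomial β c)) := by
  rw [aeval_mon, shift_mon, deg_sum]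
  have h := EE_mul (EE_C c) (EE_prod β.support _ (fun i => β i) _
    (fun i _ => EE_pow (EE_sb b v i) (β i)))
  rwa [zero_add] at h

theorem EE_P (b v : Fin n → F) (P : MvPolynomial (Fin n) F) (e : ℕ) (he : P.totalDegree ≤ e) :
    EE (MvPolynomial.aeval (sb (fun i => Polynomial.C (b i) + Polynomial.X * Polynomial.C (v i))
      (fun _ => Polynomial.X)) P) e (shift v (MvPolynomial.homogeneousComponent e P)) := by
  have h1 : shift v (MvPolynomial.homogeneousComponent e P) =
      ∑ β ∈ P.support, (if β.degree = e then shift v (MvPolynomial.monomial β (P.coeff β))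
        else 0) := by
    rw [MvPolynomial.homogeneousComponent_apply, ← Finset.sum_filter]
    unfold shift
    rw [map_sum]
  have h0 : MvPolynomial.aeval (sb (fun i => Polynomial.C (b i) + Polynomial.X *
      Polynomial.C (v i)) (fun _ => Polynomial.X)) P =
      ∑ β ∈ P.support, MvPolynomial.aeval (sb (fun i => Polynomial.C (b i) + Polynomial.X *
      Polynomial.C (v i)) (fun _ => Polynomial.X)) (MvPolynomial.monomial β (P.coeff β)) := by
    conv_lhs => rw [P.as_sum, map_sum]
  rw [h1, h0]
  refine EE_sum _ _ _ _ fun β hβ => ?_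
  have h2 : β.degree ≤ e := by
    refine le_trans ?_ he
    exact MvPolynomial.le_totalDegree hβ
  have h3 := EE_mon b v β (P.coeff β)
  split_ifs with h4
  · rw [h4] at h3
    exact h3
  · intro α
    have h5 : β.degree < e := lt_of_le_of_ne h2 h4
    refine ⟨(h3 α).1.trans h2, ?_⟩
    rw [Polynomial.coeff_eq_zero_of_natDegree_lt (lt_of_le_of_lt (h3 α).1 h5)]
    simp

theorem DD_sb (U : Polynomial F) (v w : Fin n → Polynomial F) (i : Fin n) :
    DD U (sb (fun i => U * v i) w i) 1 := by
  intro α
  by_cases h : 0 = α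
  · subst h
    rw [coeff_sb, if_pos rfl, if_neg (by
      intro h
      have := congrArg (fun f => f i) h
      simp at this)]
    simp
  · have h1 : 1 - α.degree = 0 := by
      have : α.degree ≠ 0 := by
        rw [Ne, Finsupp.degree_eq_zero_iff]
        exact fun h' => h h'.symm
      omega
    rw [h1, pow_zero]
    exact one_dvd _

theorem DD_P (U : Polynomial F) (v w : Fin n → Polynomial F) (S : MvPolynomial (Fin n) F) (g : ℕ)
    (hS : ∀ β : Fin n →₀ ℕ, β.degree < g → S.coeff β = 0) :
    DD U (MvPolynomial.aeval (sb (fun i => U * v i) w) S) g := by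
  have h0 : MvPolynomial.aeval (sb (fun i => U * v i) w) S =
      ∑ β ∈ S.support, MvPolynomial.aeval (sb (fun i => U * v i) w)
        (MvPolynomial.monomial β (S.coeff β)) := by
    conv_lhs => rw [S.as_sum, map_sum]
  rw [h0]
  refine DD_sum _ _ _ fun β hβ => ?_
  have h1 : g ≤ β.degree := by
    by_contra h
    exact (MvPolynomial.mem_support_iff.1 hβ) (hS β (by omega))
  refine DD_mono ?_ h1
  rw [aeval_mon, deg_sum]
  have h := DD_mul (DD_zero U (MvPolynomial.C (Polynomial.C (S.coeff β))))
    (DD_prod β.support _ (fun i => β i) (fun i _ => DD_pow (DD_sb U v w i) (β i)))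
  rwa [zero_add] at h

theorem aeval_shift (b v : Fin n → F) (t : F) (P : MvPolynomial (Fin n) F) :
    MvPolynomial.aeval (sb (fun i => Polynomial.C (b i) + Polynomial.X * Polynomial.C (v i))
      (fun _ => Polynomial.X)) P =
    MvPolynomial.aeval (sb (fun i => (Polynomial.X - Polynomial.C t) * Polynomial.C (v i))
      (fun _ => Polynomial.X)) (shift (b + t • v) P) := by
  unfold shift
  rw [MvPolynomial.aeval_bind₁]
  congr 2
  funext i
  rw [map_add, MvPolynomial.aeval_X, MvPolynomial.aeval_C]
  unfold sb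
  have h1 : algebraMap F (MvPolynomial (Fin n) (Polynomial F)) ((b + t • v) i) =
      MvPolynomial.C (Polynomial.C (b i) + Polynomial.C t * Polynomial.C (v i)) := by
    have h2 : Polynomial.C (b i) + Polynomial.C t * Polynomial.C (v i) =
        Polynomial.C ((b + t • v) i) := by
      simp
    rw [h2]
    rfl
  rw [h1]
  simp only [map_add, map_mul, map_sub]
  ring

theorem ll : S_LL := by
  intro F _ _ n P e he g b v _ hz hg α hα
  have h1 := EE_P b v P e he α
  rw [← h1.2]
  set R := (MvPolynomial.aeval (sb (fun i => Polynomial.C (b i) + Polynomial.X *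
    Polynomial.C (v i)) (fun _ => Polynomial.X)) P).coeff α with hR
  have h2 : ∀ t : F, (Polynomial.X - Polynomial.C t) ^ (g (b + t • v) - α.degree) ∣ R := by
    intro t
    have h3 := DD_P (Polynomial.X - Polynomial.C t) (fun i => Polynomial.C (v i))
      (fun _ => Polynomial.X) (shift (b + t • v) P) (g (b + t • v)) (hz t) α
    rw [← aeval_shift] at h3
    exact h3
  have h3 : ∏ t : F, (Polynomial.X - Polynomial.C t) ^ (g (b + t • v) - α.degree) ∣ R := by
    refine Finset.prod_dvd_of_coprime ?_ fun t _ => h2 t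
    intro s _ t _ hst
    exact (Polynomial.isCoprime_X_sub_C_of_isUnit_sub (by
      exact (sub_ne_zero.2 hst).isUnit)).pow
  have h4 : R = 0 := by
    by_contra h
    have h5 := Polynomial.natDegree_le_of_dvd h3 h
    rw [Polynomial.natDegree_prod _ _ (fun t _ => pow_ne_zero _ (Polynomial.X_sub_C_ne_zero t))]
      at h5
    simp only [Polynomial.natDegree_pow, Polynomial.natDegree_X_sub_C, mul_one] at h5
    have h6 : ∑ t : F, g (b + t • v) ≤
        ∑ t : F, (g (b + t • v) - α.degree) + α.degree * Fintype.card F := by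
      have h7 : ∑ t : F, g (b + t • v) ≤ ∑ t : F, ((g (b + t • v) - α.degree) + α.degree) :=
        Finset.sum_le_sum fun t _ => by omega
      rw [Finset.sum_add_distrib, Finset.sum_const, Finset.card_univ, smul_eq_mul] at h7
      rw [mul_comm]
      exact h7
    have h8 := h1.1
    omega
  rw [h4]
  simp

end Pool.Agent.W790.KP
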